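import Pool.Agent.Helper59.LUC.Goals2

set_option autoImplicit false

namespace Pool.Agent.Helper59.LUC.PkRT2

open Polynomial

/-- a polynomial over a Galois extension all whose coefficients are fixed comes from below -/
lemma descend {K L : Type*} [Field K] [Field L] [Algebra K L] [FiniteDimensional K L] [IsGalois K L]
    (P : L[X]) (hP : ∀ σ : L ≃ₐ[K] L, P.map (σ : L →+* L) = P) :
    ∃ G : K[X], G.map (algebraMap K L) = P := by
  have h1 : P ∈ Polynomial.lifts (algebraMap K L) := by
    rw [Polynomial.lifts_iff_coeff_lifts]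
    intro n
    have h2 : P.coeff n ∈ (⊥ : IntermediateField K L) := by
      rw [IsGalois.mem_bot_iff_fixed]
      intro σ
      have h3 := congrArg (fun q => Polynomial.coeff q n) (hP σ)
      simpa [Polynomial.coeff_map] using h3
    rw [IntermediateField.mem_bot] at h2
    exact h2
  exact Polynomial.mem_lifts _ |>.1 h1

/-- a finite set stable under an automorphism gives a fixed polynomial -/
lemma fixed_prod {K L : Type*} [Field K] [Field L] [Algebra K L] (T : Finset L) (σ : L ≃ₐ[K] L)
    (hT : ∀ t ∈ T, σ t ∈ T) :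
    (∏ t ∈ T, (X - C t)).map (σ : L →+* L) = ∏ t ∈ T, (X - C t) := by
  classical
  rw [Polynomial.map_prod]
  have h1 : T.image σ = T := by
    apply Finset.eq_of_subset_of_card_le
    · intro x hx
      obtain ⟨t, ht, rfl⟩ := Finset.mem_image.1 hx
      exact hT t ht
    · rw [Finset.card_image_of_injective _ σ.injective]
  conv_rhs => rw [← h1]
  rw [Finset.prod_image (fun a _ b _ hab => σ.injective hab)]
  apply Finset.prod_congr rfl
  intro t _
  simp

theorem thm : G_RT2 := by
  classical
  intro F r h hF hr hodd s hs O hO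
  have hs0 : s ≠ 0 := by
    rintro rfl
    apply hF
    have : (F : ℂ) = 0 := by rw [← hs]; ring
    exact_mod_cast this
  have hFC : (F : ℂ) ≠ 0 := by exact_mod_cast hF
  -- the field
  let p : ℚ[X] := X ^ (2 * r) - 1
  have hpsep : p.Separable := by
    have := Polynomial.separable_X_pow_sub_C (1 : ℚ) (n := 2 * r)
      (by exact_mod_cast (by omega : 2 * r ≠ 0)) one_ne_zero
    simpa [p] using this
  have hp0 : p ≠ 0 := by
    have := Polynomial.X_pow_sub_C_ne_zero (R := ℚ) (n := 2 * r) (by omega) 1
    simpa [p] using this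
  let L : IntermediateField ℚ ℂ := IntermediateField.adjoin ℚ (p.rootSet ℂ)
  have hsplit : (p.map (algebraMap ℚ ℂ)).Splits := IsAlgClosed.splits _
  haveI hsf : p.IsSplittingField ℚ L := IntermediateField.adjoin_rootSet_isSplittingField hsplit
  haveI : FiniteDimensional ℚ L := Polynomial.IsSplittingField.finiteDimensional L p
  haveI : IsGalois ℚ L := IsGalois.of_separable_splitting_field hpsep
  -- membership
  have hmem : ∀ w : ℂ, IsPrimitiveRoot (w ^ 2) r → w ∈ L := by
    intro w hw
    apply IntermediateField.subset_adjoin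
    rw [Polynomial.mem_rootSet]
    refine ⟨hp0, ?_⟩
    have h1 : w ^ (2 * r) = 1 := by rw [pow_mul]; exact hw.pow_eq_one
    simp [p, h1]
  -- the value of g
  have hval : ∀ w : ℂ, w ∈ O → w * aeval w h / F = w / s := by
    intro w hw
    rw [((hO w).1 hw).2, ← hs]
    field_simp
  -- T
  let T : Finset L := O.attach.image (fun w => (⟨w.1, hmem w.1 ((hO w.1).1 w.2).1⟩ : L) *
    aeval (⟨w.1, hmem w.1 ((hO w.1).1 w.2).1⟩ : L) h / (F : L))
  have hcoeg : ∀ v : L, ((v * aeval v h / (F : L) : L) : ℂ) = (v : ℂ) * aeval (v : ℂ) h / F := by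
    intro v
    have h1 : ((aeval v h : L) : ℂ) = aeval (v : ℂ) h := by
      have := Polynomial.aeval_algebraMap_apply ℂ v h
      exact this.symm
    push_cast
    rw [h1]
  have hT : ∀ t : L, t ∈ T ↔ ∃ v : L, IsPrimitiveRoot (v ^ 2) r ∧ t = v * aeval v h / (F : L) := by
    intro t
    constructor
    · intro ht
      obtain ⟨w, _, rfl⟩ := Finset.mem_image.1 ht
      refine ⟨⟨w.1, hmem w.1 ((hO w.1).1 w.2).1⟩, ?_, rfl⟩
      have h1 : IsPrimitiveRoot ((w.1 : ℂ) ^ 2) r := ((hO w.1).1 w.2).1
      have h2 : Function.Injective (algebraMap L ℂ) := (algebraMap L ℂ).injective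
      apply IsPrimitiveRoot.of_map_of_injective (f := algebraMap L ℂ) _ h2
      simpa using h1
    · rintro ⟨v, hv, rfl⟩
      have hv' : IsPrimitiveRoot ((v : ℂ) ^ 2) r := by
        have h2 : Function.Injective (algebraMap L ℂ) := (algebraMap L ℂ).injective
        have := hv.map_of_injective h2
        simpa using this
      have hsq := (hodd (v : ℂ) hv').1
      have hneg := (hodd (v : ℂ) hv').2
      have hcase : aeval (v : ℂ) h = s ∨ aeval (v : ℂ) h = -s := by
        rw [← hs] at hsq
        exact sq_eq_sq_iff_eq_or_eq_neg.1 hsq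
      rcases hcase with hc | hc
      · have hvO : (v : ℂ) ∈ O := (hO _).2 ⟨hv', hc⟩
        exact Finset.mem_image.2 ⟨⟨(v : ℂ), hvO⟩, Finset.mem_attach _ _, rfl⟩
      · have hvO : -(v : ℂ) ∈ O := by
          rw [hO]
          refine ⟨by simpa using hv', ?_⟩
          rw [hneg, hc, neg_neg]
        refine Finset.mem_image.2 ⟨⟨-(v : ℂ), hvO⟩, Finset.mem_attach _ _, ?_⟩
        apply Subtype.ext
        rw [hcoeg, hcoeg]
        simp only
        rw [hneg]
        ring
  have hfix : ∀ σ : L ≃ₐ[ℚ] L, (∏ t ∈ T, (X - C t)).map (σ : L →+* L) = ∏ t ∈ T, (X - C t) := by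
    intro σ
    apply fixed_prod
    intro t ht
    obtain ⟨v, hv, rfl⟩ := (hT t).1 ht
    rw [hT]
    refine ⟨σ v, ?_, ?_⟩
    · have := hv.map_of_injective σ.injective
      simpa using this
    · rw [map_div₀, map_mul, ← Polynomial.aeval_algHom_apply, map_intCast]
  obtain ⟨G, hG⟩ := descend (K := ℚ) _ hfix
  refine ⟨G, ?_⟩
  have h1 : G.map (algebraMap ℚ ℂ) = (G.map (algebraMap ℚ L)).map (algebraMap L ℂ) := by
    rw [Polynomial.map_map]
    congr 1
  rw [h1, hG, Polynomial.map_prod]
  -- compare the products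
  have h2 : ∏ t ∈ T, Polynomial.map (algebraMap L ℂ) (X - C t) = ∏ w ∈ O.attach, (X - C (w.1 / s)) := by
    rw [Finset.prod_image]
    · apply Finset.prod_congr rfl
      intro w _
      rw [Polynomial.map_sub, Polynomial.map_X, Polynomial.map_C]
      congr 2
      have := hcoeg ⟨w.1, hmem w.1 ((hO w.1).1 w.2).1⟩
      rw [← hval w.1 w.2]
      exact this
    · intro a _ b _ hab
      have h3 := congrArg (fun t : L => (t : ℂ)) hab
      simp only at h3
      rw [hcoeg, hcoeg] at h3
      simp only at h3
      rw [hval a.1 a.2, hval b.1 b.2] at h3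
      apply Subtype.ext
      field_simp at h3
      exact h3
  rw [h2]
  exact Finset.prod_attach O (fun w => X - C (w / s))

end Pool.Agent.Helper59.LUC.PkRT2
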